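import Pool.Agent.H94.PX2.M02

/-!
# PX Bas: the binary form

`fo_smul`, `fd_eq` (explicit derivative: `EuclideanSpace` coordinates are continuous linear maps; `HasFDerivAt.sum`), `fd_euler` (from `fd_eq` or from `fo_smul` by differentiating `c ↦ Fo θ y (c • x)`),
`fd_root` (at a root `x ≠ 0` the linear form `Fd θ y x` is `0` at `x`, so it is a multiple of `dt x`), `qf_add` (periodicity), `qf_le` (compactness of the torus and of the unit sphere), continuity, analyticity.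
-/

set_option autoImplicit false

open Topology Filter Metric

namespace Pool.Agent.PX

open Pool.Agent.H36.BP (EN fs wd)
open Pool.Agent.H62.EF (MN)
open Pool.Agent.AD (Vd)
open Pool.Agent.TG (Lat)
open Pool.Agent.G3 (wt)
open Pool.Agent.G4 (Few)

variable {k d r : ℕ}

variable {Λ : AddSubgroup (Vd (k + 1))} {D : Set (Vd (k + 1))} {Bad : Vd (k + 1) → Set (Vd (k + 1))} {θ : Fin (d + 1) → Vd (k + 1) → ℂ}
  {W : Fin r → Vd (k + 1) →L[ℂ] ℂ}

theorem cdiff (j : Fin (1 + 1)) : Differentiable ℂ fun x : EN 1 => x j := by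
  exact (EuclideanSpace.proj (𝕜 := ℂ) j : EN 1 →L[ℂ] ℂ).differentiable

theorem fo_smul (θ : Fin (d + 1) → Vd (k + 1) → ℂ) (y : Vd (k + 1)) (c : ℂ) (x : EN 1) : Fo θ y (c • x) = c ^ d * Fo θ y x := by
  unfold Fo
  rw [Finset.mul_sum]
  refine Finset.sum_congr rfl fun i _ => ?_
  have hi : (i : ℕ) ≤ d := Nat.lt_succ_iff.mp i.2
  have h1 : c ^ d = c ^ (i : ℕ) * c ^ (d - (i : ℕ)) := by rw [← pow_add, Nat.add_sub_cancel' hi]
  rw [h1]
  simp only [PiLp.smul_apply, smul_eq_mul, mul_pow]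
  ring

theorem fo_diff {θ : Fin (d + 1) → Vd (k + 1) → ℂ} (han : ∀ i, Differentiable ℂ (θ i)) : Differentiable ℂ fun p : Vd (k + 1) × EN 1 => Fo θ p.1 p.2 := by
  unfold Fo
  refine Differentiable.fun_sum fun i _ => ?_
  have h0 : Differentiable ℂ fun p : Vd (k + 1) × EN 1 => p.2 0 := (cdiff 0).comp differentiable_snd
  have h1 : Differentiable ℂ fun p : Vd (k + 1) × EN 1 => p.2 1 := (cdiff 1).comp differentiable_snd
  have h2 : Differentiable ℂ fun p : Vd (k + 1) × EN 1 => θ i p.1 := (han i).comp differentiable_fst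
  exact (h2.mul (h0.pow _)).mul (h1.pow _)

private theorem fo_differentiable (θ : Fin (d + 1) → Vd (k + 1) → ℂ) (y : Vd (k + 1)) : Differentiable ℂ (Fo θ y) := by
  unfold Fo
  refine Differentiable.fun_sum fun i _ => ?_
  exact (((cdiff 0).pow _).const_mul _).mul ((cdiff 1).pow _)

private theorem fd_line (θ : Fin (d + 1) → Vd (k + 1) → ℂ) (y : Vd (k + 1)) (x v : EN 1) :
    HasDerivAt (fun t : ℂ => Fo θ y (x + t • v)) (Fd θ y x v) 0 := by
  have h1 : HasDerivAt (fun t : ℂ => x + t • v) v 0 := by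
    simpa using ((hasDerivAt_id (0 : ℂ)).smul_const v).const_add x
  have h2 : HasFDerivAt (Fo θ y) (fderiv ℂ (Fo θ y) x) (x + (0 : ℂ) • v) := by
    have := (fo_differentiable θ y x).hasFDerivAt
    simpa using this
  exact h2.comp_hasDerivAt (0 : ℂ) h1

theorem fd_eq (θ : Fin (d + 1) → Vd (k + 1) → ℂ) (y : Vd (k + 1)) (x v : EN 1) :
    Fd θ y x v = ∑ i : Fin (d + 1), θ i y * ((i : ℕ) * x 0 ^ ((i : ℕ) - 1) * x 1 ^ (d - (i : ℕ)) * v 0 + ((d - (i : ℕ) : ℕ) : ℂ) * x 0 ^ (i : ℕ) * x 1 ^ (d - (i : ℕ) - 1) * v 1) := by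
  refine (fd_line θ y x v).unique ?_
  unfold Fo
  refine HasDerivAt.fun_sum fun i _ => ?_
  have h0 : HasDerivAt (fun t : ℂ => (x + t • v) 0) (v 0) 0 := by
    simpa using ((hasDerivAt_id (0 : ℂ)).mul_const (v 0)).const_add (x 0)
  have h1 : HasDerivAt (fun t : ℂ => (x + t • v) 1) (v 1) 0 := by
    simpa using ((hasDerivAt_id (0 : ℂ)).mul_const (v 1)).const_add (x 1)
  have h := ((h0.fun_pow (i : ℕ)).const_mul (θ i y)).mul (h1.fun_pow (d - (i : ℕ)))
  refine h.congr_deriv ?_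
  simp only [zero_smul, add_zero]
  ring

theorem fd_euler (θ : Fin (d + 1) → Vd (k + 1) → ℂ) (y : Vd (k + 1)) (x : EN 1) : Fd θ y x x = d * Fo θ y x := by
  refine (fd_line θ y x x).unique ?_
  have he : (fun t : ℂ => Fo θ y (x + t • x)) = fun t : ℂ => (1 + t) ^ d * Fo θ y x := by
    funext t
    rw [← fo_smul, add_smul, one_smul]
  rw [he]
  have h1 : HasDerivAt (fun t : ℂ => 1 + t) 1 0 := (hasDerivAt_id (0 : ℂ)).const_add 1
  have h := (h1.fun_pow d).mul_const (Fo θ y x)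
  refine h.congr_deriv ?_
  simp

theorem coord_ne {x : EN 1} (hx : x ≠ 0) : x 0 ≠ 0 ∨ x 1 ≠ 0 := by
  by_contra h
  push Not at h
  apply hx
  ext i
  fin_cases i
  · exact h.1
  · exact h.2

/-- at a root the derivative is a multiple of the determinant -/
theorem fd_root (θ : Fin (d + 1) → Vd (k + 1) → ℂ) {y : Vd (k + 1)} {x : EN 1} (hx : x ≠ 0) (h : Fo θ y x = 0) : ∃ κ : ℂ, ∀ v, Fd θ y x v = κ * dt x v := by
  obtain ⟨A, B, hAB⟩ : ∃ A B : ℂ, ∀ v : EN 1, Fd θ y x v = A * v 0 + B * v 1 := by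
    refine ⟨∑ i : Fin (d + 1), θ i y * ((i : ℕ) * x 0 ^ ((i : ℕ) - 1) * x 1 ^ (d - (i : ℕ))),
      ∑ i : Fin (d + 1), θ i y * (((d - (i : ℕ) : ℕ) : ℂ) * x 0 ^ (i : ℕ) * x 1 ^ (d - (i : ℕ) - 1)), fun v => ?_⟩
    rw [fd_eq, Finset.sum_mul, Finset.sum_mul, ← Finset.sum_add_distrib]
    refine Finset.sum_congr rfl fun i _ => ?_
    ring
  have h0 : A * x 0 + B * x 1 = 0 := by
    rw [← hAB x, fd_euler, h, mul_zero]
  rcases coord_ne hx with h1 | h1
  · refine ⟨B / x 0, fun v => ?_⟩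
    rw [hAB v, dt]
    field_simp
    linear_combination v 0 * h0
  · refine ⟨-A / x 1, fun v => ?_⟩
    rw [hAB v, dt]
    field_simp
    linear_combination v 1 * h0

private theorem norm_sq_EN (x : EN 1) : ‖x‖ ^ 2 = ‖x 0‖ ^ 2 + ‖x 1‖ ^ 2 := by
  rw [EuclideanSpace.norm_sq_eq, Fin.sum_univ_two]

theorem dt_le (x v : EN 1) : ‖dt x v‖ ≤ ‖x‖ * ‖v‖ := by
  have h1 : ‖dt x v‖ ≤ ‖x 0‖ * ‖v 1‖ + ‖x 1‖ * ‖v 0‖ := by
    unfold dt
    refine (norm_sub_le _ _).trans ?_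
    rw [norm_mul, norm_mul]
  refine h1.trans ?_
  refine abs_le_of_sq_le_sq' ?_ (by positivity) |>.2
  rw [mul_pow, norm_sq_EN, norm_sq_EN]
  nlinarith [sq_nonneg (‖x 0‖ * ‖v 0‖ - ‖x 1‖ * ‖v 1‖)]

theorem PD.qf_add (P : PD Λ D Bad θ W) {l : Vd (k + 1)} (hl : l ∈ Λ) (y : Vd (k + 1)) (x : EN 1) : qf θ W (y + l) x = qf θ W y x := by
  obtain ⟨e, he, h⟩ := P.per l hl y
  have h1 : Fo θ (y + l) x = e * Fo θ y x := by
    unfold Fo
    rw [Finset.mul_sum]
    refine Finset.sum_congr rfl fun i _ => ?_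
    rw [h i]; ring
  unfold qf
  rw [h1, norm_mul, ← he]
  ring

private theorem coord_le (x : EN 1) (j : Fin (1 + 1)) : ‖x j‖ ≤ ‖x‖ := PiLp.norm_apply_le x j

theorem PD.qf_le (P : PD Λ D Bad θ W) : ∃ C : ℝ, 0 < C ∧ ∀ y x, qf θ W y x ≤ C := by
  obtain ⟨R, hR, hcov⟩ := P.lat.cpt
  have hcont : Continuous fun y : Vd (k + 1) => (∑ i : Fin (d + 1), ‖θ i y‖) * Real.exp (-wt W y) := by
    unfold wt
    have h1 : Continuous fun y : Vd (k + 1) => ∑ i : Fin (d + 1), ‖θ i y‖ := continuous_finsetSum _ fun i _ => (P.an i).continuous.norm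
    have h2 : Continuous fun y : Vd (k + 1) => ∑ i, ‖W i y‖ ^ 2 := continuous_finsetSum _ fun i _ => ((W i).continuous.norm).pow 2
    exact h1.mul (Real.continuous_exp.comp h2.neg)
  obtain ⟨C, hC⟩ := (isCompact_closedBall (0 : Vd (k + 1)) R).exists_bound_of_continuousOn hcont.continuousOn
  have hd : d ≠ 0 := by have := P.deg; omega
  refine ⟨|C| + 1, by positivity, fun y x => ?_⟩
  obtain ⟨l, hl, hyl⟩ := hcov y
  have h1 : qf θ W y x = qf θ W (y - l) x := by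
    have := P.qf_add hl (y - l) x
    rw [sub_add_cancel] at this
    exact this
  rw [h1]
  have hmem : y - l ∈ closedBall (0 : Vd (k + 1)) R := by rwa [mem_closedBall_zero_iff]
  have h2 := hC _ hmem
  rw [Real.norm_of_nonneg (by positivity)] at h2
  refine le_trans ?_ (h2.trans ((le_abs_self C).trans (by linarith)))
  have hfo : ‖Fo θ (y - l) x‖ ≤ (∑ i : Fin (d + 1), ‖θ i (y - l)‖) * ‖x‖ ^ d := by
    unfold Fo
    refine (norm_sum_le _ _).trans ?_
    rw [Finset.sum_mul]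
    refine Finset.sum_le_sum fun i _ => ?_
    have hi : (i : ℕ) ≤ d := Nat.lt_succ_iff.mp i.2
    have h3 : ‖x‖ ^ d = ‖x‖ ^ (i : ℕ) * ‖x‖ ^ (d - (i : ℕ)) := by rw [← pow_add, Nat.add_sub_cancel' hi]
    rw [norm_mul, norm_mul, norm_pow, norm_pow, h3, mul_assoc]
    refine mul_le_mul_of_nonneg_left ?_ (norm_nonneg _)
    exact mul_le_mul (pow_le_pow_left₀ (norm_nonneg _) (coord_le x 0) _) (pow_le_pow_left₀ (norm_nonneg _) (coord_le x 1) _) (by positivity) (by positivity)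
  unfold qf
  rcases eq_or_ne x 0 with hx | hx
  · subst hx
    rw [norm_zero, zero_pow hd, div_zero]
    positivity
  · have hxp : 0 < ‖x‖ ^ d := pow_pos (norm_pos_iff.mpr hx) _
    rw [div_le_iff₀ hxp]
    calc ‖Fo θ (y - l) x‖ * Real.exp (-wt W (y - l)) ≤ ((∑ i : Fin (d + 1), ‖θ i (y - l)‖) * ‖x‖ ^ d) * Real.exp (-wt W (y - l)) :=
          mul_le_mul_of_nonneg_right hfo (Real.exp_pos _).le
      _ = (∑ i : Fin (d + 1), ‖θ i (y - l)‖) * Real.exp (-wt W (y - l)) * ‖x‖ ^ d := by ring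

end Pool.Agent.PX
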