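import Pool.Agent.H94.PX2.M08
import Pool.Agent.H94.PX2.M69
import Pool.Agent.H94.PX2.M75

/-!
# PX Good: the limit root is simple at the good hits

Note 3933, step (3).  Coordinates: `b` with `Fo θ p b ≠ 0` (`p = y + z₀ a`), `e` with `dt b e ≠ 0`.  The roots over an arc are `t • b + e`, `t` a root of a monic polynomial
with holomorphic coefficients.  The curves meet `D` once near the hit, so `H56.PR.simple_hit` applies.
-/

set_option autoImplicit false

open Topology Filter Metric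

namespace Pool.Agent.PX

open Pool.Agent.H36.BP (EN fs wd)
open Pool.Agent.H62.EF (MN pr)
open Pool.Agent.AD (Vd)
open Pool.Agent.TG (Lat Gd)
open Pool.Agent.G3 (wt TT LLift)
open Pool.Agent.G4 (Few)
open Pool.Agent.H56.PR (hom hom_eq hom_zero LFam simple_hit)

variable {k d r : ℕ}

variable {Λ : AddSubgroup (Vd (k + 1))} {D : Set (Vd (k + 1))} {Bad : Vd (k + 1) → Set (Vd (k + 1))} {θ : Fin (d + 1) → Vd (k + 1) → ℂ}
  {W : Fin r → Vd (k + 1) →L[ℂ] ℂ}

theorem PD.good_hit (P : PD Λ D Bad θ W) {y a : Vd (k + 1)} (ha : a ≠ 0) {𝒰 : Ultrafilter ℕ} {w : ℕ → ℂ → EN 1} {h : ℕ → ℂ → Vd (k + 1)} {g : ℂ → MN 1}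
    (S : LS θ D y a 𝒰 w h g) (hR : Rt θ D y a g) {z₀ : ℂ} (hz₀ : y + z₀ • a ∈ D) (hb : y + z₀ • a ∉ Bad a) :
    ∃ ρ : ℝ, 0 < ρ ∧ ∃ G : ℂ → EN 1, DifferentiableOn ℂ G (ball z₀ ρ) ∧ (∀ z ∈ ball z₀ ρ, G z ≠ 0 ∧ Fo θ (y + z • a) (G z) = 0 ∧ ∃ v, Fd θ (y + z • a) (G z) v ≠ 0) ∧
      ∀ z ∈ ball z₀ ρ, z ≠ z₀ → g z = pr (G z) := by
  classical
  have hd1 : 0 < d := by have := P.deg; omega
  set p := y + z₀ • a with hp
  obtain ⟨b, hbp⟩ := exists_b (P.form_ne ha S hz₀ hb)
  have hb0 : b ≠ 0 := by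
    rintro rfl
    apply hbp
    have h1 := fo_smul θ p 0 (0 : EN 1)
    rw [zero_smul, zero_pow hd1.ne', zero_mul] at h1
    exact h1
  obtain ⟨e, hbe⟩ := exists_e hb0
  obtain ⟨c, hcd, hc⟩ := exists_coef P.an b e
  obtain ⟨s, hs, hsD, hsa⟩ := P.good a ha p hz₀ hb
  obtain ⟨ρ₀, hρ₀, H⟩ := one_hit hs hsD hz₀ hsa
  -- the form is not `0` at `b` near `p`
  have hFb : Differentiable ℂ fun y => Fo θ y b := by
    have h1 := (fo_diff P.an).comp
      ((differentiable_id : Differentiable ℂ fun y : Vd (k + 1) => y).prodMk (differentiable_const b))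
    exact h1
  obtain ⟨r₁, hr₁, hFr⟩ : ∃ r₁ : ℝ, 0 < r₁ ∧ ∀ y' ∈ closedBall p r₁, Fo θ y' b ≠ 0 := by
    have h1 : ∀ᶠ y' in 𝓝 p, Fo θ y' b ≠ 0 := hFb.continuous.continuousAt.eventually_ne hbp
    obtain ⟨r₁, hr₁, h2⟩ := Metric.eventually_nhds_iff_ball.1 h1
    exact ⟨r₁ / 2, half_pos hr₁, fun y' hy' => h2 _ (closedBall_subset_ball (half_lt_self hr₁) hy')⟩
  obtain ⟨ρ, hρ, hρρ₀, hρa⟩ := exists_rad (a := a) hρ₀ hr₁
  obtain ⟨ε, hε, H⟩ := H ρ hρ hρρ₀
  -- the line
  set L : ℂ → Vd (k + 1) := fun z => p + z • a with hL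
  have hLd : Differentiable ℂ L := by
    simp only [hL]; fun_prop
  have hLK : ∀ z ∈ ball (0 : ℂ) (2 * ρ), L z ∈ closedBall p r₁ := by
    intro z hz
    rw [mem_closedBall_iff_norm, hL]
    simp only [add_sub_cancel_left]
    have h1 := hρa z (by have := mem_ball_zero_iff.1 hz; linarith)
    linarith
  have hLD : ∀ z ∈ ball (0 : ℂ) (2 * ρ), z ≠ 0 → L z ∉ D := by
    obtain ⟨z₁, -, -, h3⟩ := H L hLd.differentiableOn fun z _ => by
      simpa [hL] using hε
    have h0 : (0 : ℂ) = z₁ := h3 0 (mem_ball_self (by linarith)) (by simpa [hL] using hz₀)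
    intro z hz hz0 hzD
    exact hz0 ((h3 z hz hzD).trans h0.symm)
  -- the family over the line
  set cL := cf θ c b L with hcL
  have hLan : ∀ i, DifferentiableOn ℂ (cL i) (ball 0 (2 * ρ)) := by
    intro i
    simp only [hcL]
    unfold cf
    refine DifferentiableOn.div ?_ ?_ fun z hz => hFr _ (hLK z hz)
    · exact ((hcd i).comp hLd).differentiableOn
    · exact (hFb.comp hLd).differentiableOn
  have hLF : LFam (Pol cL) d (2 * ρ) := LFam_Pol hd1 hLan
  have hLsep : ∀ z ∈ ball (0 : ℂ) (2 * ρ), z ≠ 0 → (Pol cL z).Separable := by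
    intro z hz hz0
    refine Pol_separable fun t ht => ?_
    exact simple_pt P.an hbe hc (hFr _ (hLK z hz)) (P.simple _ (hLD z hz hz0)) t ht
  -- the coordinate of the limit root
  set τ : ℂ → ℂ := fun z => tc b e (sec (g (z₀ + z))) with hτ
  have hline : ∀ z : ℂ, y + (z₀ + z) • a = L z := by
    intro z
    simp only [hL, hp, add_smul]
    abel
  have hLL : ∀ z ∈ ball (0 : ℂ) (2 * ρ), z ≠ 0 → ∃ Φ : ℂ → EN 1, AnalyticAt ℂ Φ (z₀ + z) ∧
      (∀ᶠ z' in 𝓝 (z₀ + z), Φ z' ≠ 0 ∧ g z' = pr (Φ z')) ∧ Φ (z₀ + z) ≠ 0 ∧ g (z₀ + z) = pr (Φ (z₀ + z)) ∧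
      Fo θ (L z) (Φ (z₀ + z)) = 0 ∧ dt b (Φ (z₀ + z)) ≠ 0 ∧
      Φ (z₀ + z) = (dt b (Φ (z₀ + z)) / dt b e) • (tc b e (Φ (z₀ + z)) • b + e) := by
    intro z hz hz0
    have hD' : y + (z₀ + z) • a ∉ D := by rw [hline]; exact hLD z hz hz0
    obtain ⟨Φ, h1, h2⟩ := S.lift (z₀ + z) hD'
    have h3 := h2.self_of_nhds
    have h4 : Fo θ (L z) (Φ (z₀ + z)) = 0 := by
      rw [← hline]; exact hR _ hD' _ h3.1 h3.2.symm
    obtain ⟨h5, h6⟩ := rt_dt (b := b) (e := e) hbe (hFr _ (hLK z hz)) h3.1 h4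
    refine ⟨Φ, h1, h2, h3.1, h3.2, h4, h5, ?_⟩
    have h7 : tc b e (Φ (z₀ + z)) = -(dt e (Φ (z₀ + z))) / dt b (Φ (z₀ + z)) := by
      rw [tc, dt_swap (Φ (z₀ + z)) e]
    rw [h7]
    exact h6
  have hτeq : ∀ z ∈ ball (0 : ℂ) (2 * ρ), z ≠ 0 → Pt cL z (τ z) = 0 ∧ g (z₀ + z) = pr (τ z • b + e) := by
    intro z hz hz0
    obtain ⟨Φ, h1, h2, h3, h4, h5, h6, h7⟩ := hLL z hz hz0
    have h8 : τ z = tc b e (Φ (z₀ + z)) := by
      simp only [hτ]; rw [h4, tc_sec h3]
    have hne : dt b (Φ (z₀ + z)) / dt b e ≠ 0 := div_ne_zero h6 hbe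
    constructor
    · rw [h7, fo_smul, ← h8] at h5
      have h9 : Fo θ (L z) (τ z • b + e) = 0 := by
        rcases mul_eq_zero.1 h5 with h | h
        · exact absurd h (pow_ne_zero _ hne)
        · exact h
      rw [fo_pt hc (hFr _ (hLK z hz))] at h9
      exact (mul_eq_zero.1 h9).resolve_left (hFr _ (hLK z hz))
    · rw [h4, h7, H62.EF.pr_smul _ hne, ← h8]
  have hopen : IsOpen (ball (0 : ℂ) (2 * ρ) \ {0}) := isOpen_ball.sdiff isClosed_singleton
  have hτd : DifferentiableOn ℂ τ (ball 0 (2 * ρ) \ {0}) := by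
    rintro z ⟨hz, hz0⟩
    obtain ⟨Φ, h1, h2, h3, h4, h5, h6, h7⟩ := hLL z hz hz0
    have h8 : DifferentiableAt ℂ (fun z' => tc b e (Φ (z₀ + z'))) z := by
      have h9 := tc_diff h1 h6 (e := e)
      exact DifferentiableAt.comp z (f := fun z' => z₀ + z') h9 (by fun_prop)
    refine (h8.congr_of_eventuallyEq ?_).differentiableWithinAt
    have h9 : Tendsto (fun z' => z₀ + z') (𝓝 z) (𝓝 (z₀ + z)) := by
      have : Continuous fun z' : ℂ => z₀ + z' := by fun_prop
      exact this.tendsto z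
    filter_upwards [h9.eventually h2] with z' hz'
    simp only [hτ]
    rw [hz'.2, tc_sec hz'.1]
  -- it is bounded
  have hcK : ∃ M : ℝ, ∀ z ∈ ball (0 : ℂ) (2 * ρ), ∀ i, ‖cL i z‖ ≤ M := by
    have h1 : ∀ i, ∃ M : ℝ, ∀ y' ∈ closedBall p r₁, ‖c i y' / Fo θ y' b‖ ≤ M := by
      intro i
      exact (isCompact_closedBall p r₁).exists_bound_of_continuousOn
        ((hcd i).continuous.continuousOn.div hFb.continuous.continuousOn hFr)
    choose M hM using h1
    refine ⟨∑ i, |M i|, fun z hz i => ?_⟩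
    refine (hM i _ (hLK z hz)).trans ((le_abs_self _).trans ?_)
    exact Finset.single_le_sum (f := fun i => |M i|) (fun j _ => abs_nonneg _) (Finset.mem_univ i)
  obtain ⟨M, hM⟩ := hcK
  have hτb : ∀ z ∈ ball (0 : ℂ) (2 * ρ) \ {0}, ‖τ z‖ ≤ max 1 (d * M) := fun z hz =>
    Pt_bound hd1 (hM z hz.1) (hτeq z hz.1 hz.2).1
  have hTd := Complex.differentiableOn_update_limUnder_of_bddAbove
    (isOpen_ball.mem_nhds (mem_ball_self (by linarith : (0 : ℝ) < 2 * ρ))) hτd
    (⟨max 1 (d * M), by rintro _ ⟨z, hz, rfl⟩; exact hτb z hz⟩ : BddAbove (norm ∘ τ '' (ball 0 (2 * ρ) \ {0})))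
  set T := Function.update τ 0 (limUnder (𝓝[≠] 0) τ) with hT
  have hTeq : ∀ z ≠ 0, T z = τ z := fun z hz => Function.update_of_ne hz _ _
  have hTan : AnalyticOnNhd ℂ T (ball 0 (2 * ρ)) := hTd.analyticOnNhd isOpen_ball
  have hT0 : ∀ z ∈ ball (0 : ℂ) (2 * ρ), (Pol cL z).eval (T z) = 0 := by
    intro z hz
    by_cases hz0 : z = 0
    · subst hz0
      have h1 : ContinuousAt (fun z => (Pol cL z).eval (T z)) 0 := by
        have h2 := (hLF.cont_eval.continuousAt (x := ((0 : ℂ), T 0))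
          ((isOpen_ball.prod isOpen_univ).mem_nhds ⟨hz, Set.mem_univ _⟩))
        exact h2.comp_of_eq (f := fun z => (z, T z))
          (continuousAt_id.prodMk (hTan 0 hz).continuousAt) rfl
      have h2 : Tendsto (fun z => (Pol cL z).eval (T z)) (𝓝[≠] 0) (𝓝 0) := by
        refine tendsto_const_nhds.congr' ?_
        have h3 : ball (0 : ℂ) (2 * ρ) ∈ 𝓝[≠] (0 : ℂ) :=
          mem_nhdsWithin_of_mem_nhds (isOpen_ball.mem_nhds hz)
        filter_upwards [h3, self_mem_nhdsWithin] with z h4 h5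
        rw [hTeq z h5, eval_Pol, (hτeq z h4 h5).1]
      exact tendsto_nhds_unique (h1.tendsto.mono_left nhdsWithin_le_nhds) h2
    · rw [hTeq z hz0, eval_Pol, (hτeq z hz hz0).1]
  have hsub : closedBall (0 : ℂ) ρ ⊆ ball 0 (2 * ρ) := closedBall_subset_ball (by linarith)
  have hsph0 : ∀ z ∈ sphere (0 : ℂ) ρ, z ≠ 0 := by
    rintro z hz rfl
    rw [mem_sphere_zero_iff_norm, norm_zero] at hz
    exact hρ.ne hz
  -- the arcs
  have hnear := S.near z₀ (4 * ρ) (lt_min hε (half_pos hr₁))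
  have harc : ∀ᶠ n in (𝒰 : Filter ℕ), (∀ z ∈ ball (0 : ℂ) (2 * ρ), h n (z₀ + z) ∈ closedBall p r₁) ∧
      ∃ z₁ : ℂ, ‖z₁‖ ≤ ρ / 8 ∧ ∀ z ∈ ball (0 : ℂ) (2 * ρ), h n (z₀ + z) ∈ D → z = z₁ := by
    filter_upwards [hnear] with n hn
    obtain ⟨h1, -, -, h4⟩ := hn
    refine ⟨fun z hz => ?_, ?_⟩
    · have hz' : z ∈ ball (0 : ℂ) (4 * ρ) := ball_subset_ball (by linarith) hz
      rw [mem_closedBall_iff_norm]
      have h5 := (h4 z hz').trans_le (min_le_right _ _)
      have h6 := hρa z (mem_ball_zero_iff.1 hz')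
      have h7 : h n (z₀ + z) - p = (h n (z₀ + z) - (y + z₀ • a + z • a)) + z • a := by
        rw [hp]; abel
      rw [h7]
      have := norm_add_le (h n (z₀ + z) - (y + z₀ • a + z • a)) (z • a)
      linarith
    · obtain ⟨z₁, h5, -, h7⟩ := H _ h1 fun z hz => (h4 z hz).trans_le (min_le_left _ _)
      exact ⟨z₁, h5, h7⟩
  choose! z₁ hz₁ using fun n (hn : ∃ z₁ : ℂ, ‖z₁‖ ≤ ρ / 8 ∧
    ∀ z ∈ ball (0 : ℂ) (2 * ρ), h n (z₀ + z) ∈ D → z = z₁) => hn
  set cn : ℕ → Fin d → ℂ → ℂ := fun n => cf θ c b (fun z => h n (z₀ + z)) with hcn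
  have key : ∀ z ∈ closedBall (0 : ℂ) ρ, (Pol cL z).derivative.eval (T z) ≠ 0 := by
    refine simple_hit (l := (𝒰 : Filter ℕ)) (ρ := 2 * ρ) (r := ρ) (P := fun n => Pol (cn n)) (P' := Pol cL) (d := d)
      hρ (by linarith) ?_ hLF (a := z₁) ?_ ?_ ?_ ?_
      (A := fun n z => dt (w n (z₀ + z)) e / dt b e) (B := fun n z => dt b (w n (z₀ + z)) / dt b e)
      ?_ ?_ ?_ (hTan.mono hsub) (fun z hz => hT0 z (hsub hz)) ?_
    · filter_upwards [hnear, harc] with n h1 h2
      refine LFam_Pol hd1 fun i => ?_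
      simp only [hcn]
      unfold cf
      have h3 : DifferentiableOn ℂ (fun z => h n (z₀ + z)) (ball 0 (2 * ρ)) :=
        h1.1.mono (ball_subset_ball (by linarith))
      refine DifferentiableOn.div ?_ ?_ fun z hz => hFr _ (h2.1 z hz)
      · exact (hcd i).differentiableOn.comp h3 fun z _ => Set.mem_univ _
      · exact hFb.differentiableOn.comp h3 fun z _ => Set.mem_univ _
    · filter_upwards [harc] with n h2
      have h3 := (hz₁ n h2.2).1
      constructor <;> linarith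
    · filter_upwards [harc] with n h2 z hz hzn
      refine Pol_separable fun t ht => ?_
      refine simple_pt P.an hbe hc (hFr _ (h2.1 z hz)) (P.simple _ fun h3 => ?_) t ht
      exact hzn ((hz₁ n h2.2).2 z hz h3)
    · intro z hz
      exact hLsep z (hsub (sphere_subset_closedBall hz)) (hsph0 z hz)
    · refine conv_Pol fun i => ?_
      simp only [hcn, hcL]
      unfold cf
      refine conv_comp (isCompact_closedBall p r₁) (ψ := fun y' => c i y' / Fo θ y' b)
        ((hcd i).continuous.continuousOn.div hFb.continuous.continuousOn hFr) ?_ ?_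
        fun z hz => hLK z (hsub hz)
      · intro η hη
        filter_upwards [S.near z₀ (4 * ρ) hη] with n h1 z hz
        have h2 := h1.2.2.2 z (closedBall_subset_ball (by linarith) hz)
        simpa [hL, hp] using h2
      · filter_upwards [harc] with n h2 z hz
        exact h2.1 z (hsub hz)
    · filter_upwards [hnear] with n h1
      have h2 : DifferentiableOn ℂ (fun z => w n (z₀ + z)) (ball 0 (2 * ρ)) :=
        h1.2.1.mono (ball_subset_ball (by linarith))
      have h3 := differentiableOn_euclidean.1 h2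
      unfold dt
      exact (((h3 0).mul_const _).sub ((h3 1).mul_const _)).div_const _
    · filter_upwards [hnear] with n h1
      have h2 : DifferentiableOn ℂ (fun z => w n (z₀ + z)) (ball 0 (2 * ρ)) :=
        h1.2.1.mono (ball_subset_ball (by linarith))
      have h3 := differentiableOn_euclidean.1 h2
      unfold dt
      exact (((h3 1).const_mul _).sub ((h3 0).const_mul _)).div_const _
    · filter_upwards [hnear, harc] with n h1 h2 z hz h3
      have h4 := fo_hom (θ := θ) (c := c) (b := b) (e := e) (γ := fun z => h n (z₀ + z)) (z := z)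
        hc (hFr _ (h2.1 z hz)) (dt (w n (z₀ + z)) e / dt b e) (dt b (w n (z₀ + z)) / dt b e)
      rw [← coord hbe] at h4
      apply h1.2.2.1 z (ball_subset_ball (by linarith) hz)
      rw [h4]
      simp only [hcn] at h3
      rw [h3, mul_zero]
    · intro η hη
      have hδ : 0 < ‖dt b e‖ := norm_pos_iff.2 hbe
      -- a bound of the points
      obtain ⟨N, hN⟩ : ∃ N : ℝ, ∀ z ∈ sphere (0 : ℂ) ρ, ‖T z • b + e‖ ≤ N :=
        (isCompact_sphere (0 : ℂ) ρ).exists_bound_of_continuousOn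
          ((((hTan.mono hsub).continuousOn.mono sphere_subset_closedBall).smul
            continuousOn_const).add continuousOn_const)
      set N' := |N| + 1 with hN'
      have hN'0 : 0 < N' := by positivity
      set η' := min (‖dt b e‖ / 2 / (N' * (‖b‖ + 1))) (η * ‖dt b e‖ / 2 / (N' * N')) with hη'
      have hη'0 : 0 < η' := by
        refine lt_min ?_ ?_ <;> positivity
      have hK : IsCompact ((fun z => z₀ + z) '' sphere (0 : ℂ) ρ) :=
        (isCompact_sphere _ _).image (by fun_prop)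
      filter_upwards [S.lim _ hK (by
        rintro _ ⟨z, hz, rfl⟩
        simp only
        rw [hline]
        exact hLD z (hsub (sphere_subset_closedBall hz)) (hsph0 z hz)) η' hη'0, hnear] with n h1 h1' z hz
      have hz2 := hsub (sphere_subset_closedBall hz)
      have h2 := h1 _ ⟨z, hz, rfl⟩
      simp only at h2
      rw [(hτeq z hz2 (hsph0 z hz)).2, ← hTeq z (hsph0 z hz)] at h2
      have hwne : w n (z₀ + z) ≠ 0 := by
        intro h3
        apply h1'.2.2.1 z (ball_subset_ball (by linarith) hz2)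
        have h4 := fo_smul θ (h n (z₀ + z)) 0 (0 : EN 1)
        rw [zero_smul, zero_pow hd1.ne', zero_mul] at h4
        rw [h3, h4]
      obtain ⟨h3, h4⟩ := tc_near (η := η') (ε := η) (M := N') hbe hwne h2.le
        ((hN z hz).trans ((le_abs_self _).trans (by linarith))) (by
          have h5 : η' ≤ ‖dt b e‖ / 2 / (N' * (‖b‖ + 1)) := min_le_left _ _
          rw [le_div_iff₀ (by positivity)] at h5
          have h6 : η' * (N' * ‖b‖) ≤ η' * (N' * (‖b‖ + 1)) := by gcongr; linarith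
          linarith) (by
          have h5 : η' ≤ η * ‖dt b e‖ / 2 / (N' * N') := min_le_right _ _
          rw [le_div_iff₀ (by positivity)] at h5
          linarith)
      refine ⟨div_ne_zero h3 hbe, ?_⟩
      rw [div_div_div_cancel_right₀ hbe]
      exact h4
  -- the conclusion
  refine ⟨ρ, hρ, fun z => T (z - z₀) • b + e, ?_, ?_, ?_⟩
  · have hm : Set.MapsTo (fun z => z - z₀) (ball z₀ ρ) (ball 0 (2 * ρ)) := by
      intro z hz
      rw [mem_ball_iff_norm] at hz
      rw [mem_ball_zero_iff]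
      linarith
    have h1 : DifferentiableOn ℂ (fun z => T (z - z₀)) (ball z₀ ρ) :=
      hTd.comp (by fun_prop) hm
    exact (h1.smul_const b).add_const e
  · intro z hz
    rw [mem_ball_iff_norm] at hz
    have hz1 : z - z₀ ∈ closedBall (0 : ℂ) ρ := mem_closedBall_zero_iff.2 hz.le
    have hz2 := hsub hz1
    have h1 : y + z • a = L (z - z₀) := by
      rw [← hline, add_sub_cancel]
    rw [h1]
    refine ⟨line_ne hbe _, ?_, b, ?_⟩
    · rw [fo_pt hc (hFr _ (hLK _ hz2)), ← eval_Pol, hT0 _ hz2, mul_zero]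
    · rw [deriv_pt P.an hc (hFr _ (hLK _ hz2)), deriv_Pt]
      exact mul_ne_zero (hFr _ (hLK _ hz2)) (key _ hz1)
  · intro z hz hz0
    rw [mem_ball_iff_norm] at hz
    have hz1 : z - z₀ ≠ 0 := sub_ne_zero.2 hz0
    have hz2 : z - z₀ ∈ ball (0 : ℂ) (2 * ρ) := mem_ball_zero_iff.2 (by linarith)
    have h1 := (hτeq _ hz2 hz1).2
    rw [add_sub_cancel] at h1
    simp only
    rw [h1, hTeq _ hz1]

end Pool.Agent.PX
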